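import Mathlib.FieldTheory.RatFunc.Basic
import Mathlib.FieldTheory.RatFunc.AsPolynomial
import Mathlib.FieldTheory.IntermediateField.Basic
import Mathlib.Algebra.AlgebraicCard
import Mathlib.Analysis.Complex.Cardinality

/-!
# Motivic cohomology over the extension fields of a field: definitions
-/

universe u v

namespace Pool.Agent.TH116.BS

/-- An extension field of the field `k`. -/
structure Ext (k : Type u) [Field k] where
  /-- the field -/
  carrier : Type u
  [field : Field carrier]
  [algebra : Algebra k carrier]

attribute [instance] Ext.field Ext.algebra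

variable {k : Type u} [Field k]

/-- The embeddings of extension fields of `k`. -/
abbrev Ext.Hom (E F : Ext k) : Type u := E.carrier →ₐ[k] F.carrier

/-- The field `E(t)` of rational functions over `E`. -/
noncomputable def Ext.ratFunc (E : Ext k) : Ext k := ⟨RatFunc E.carrier⟩

/-- The inclusion of `E` in the field `E(t)` of rational functions. -/
noncomputable def Ext.incl (E : Ext k) : E.Hom E.ratFunc :=
  IsScalarTower.toAlgHom k E.carrier (RatFunc E.carrier)

/-- The unit `t` of `E(t)`. -/
noncomputable def Ext.t (E : Ext k) : E.ratFunc.carrierˣ :=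
  Units.mk0 (RatFunc.X : RatFunc E.carrier) RatFunc.X_ne_zero

/-- The unit `f a` for an embedding `f` and a unit `a`. -/
noncomputable def Ext.mapUnit {E F : Ext k} (f : E.Hom F) (a : E.carrierˣ) : F.carrierˣ :=
  Units.map (f : E.carrier →* F.carrier) a

/-- The extension field given by an intermediate field. -/
def Ext.sub {E : Ext k} (L : IntermediateField k E.carrier) : Ext k := ⟨L⟩

/-- The inclusion of an intermediate field. -/
def Ext.subVal {E : Ext k} (L : IntermediateField k E.carrier) : (Ext.sub L).Hom E := L.val

/-- The data of groups `H i n E` for all extension fields `E` of the field `k`, with additive maps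
`H i n E → H i n F` for embeddings `E → F`, products `{a} · : H i n E → H (i+1) (n+1) E` with the
symbols of the units `a` of `E`, and residue maps `H (i+1) (n+1) E(t) → H i n E` at `t = 0`. -/
structure FieldTheory (k : Type u) [Field k] where
  /-- the groups -/
  H : ℤ → ℤ → Ext k → Type v
  [grp : ∀ (i n : ℤ) (E : Ext k), AddCommGroup (H i n E)]
  /-- functoriality -/
  map : ∀ (i n : ℤ) {E F : Ext k}, E.Hom F → H i n E → H i n F
  map_add : ∀ (i n : ℤ) {E F : Ext k} (f : E.Hom F) (x y : H i n E),
    map i n f (x + y) = map i n f x + map i n f y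
  /-- the product with the symbol of a unit -/
  sym : ∀ (i n : ℤ) {E : Ext k}, E.carrierˣ → H i n E → H (i + 1) (n + 1) E
  sym_add : ∀ (i n : ℤ) {E : Ext k} (a : E.carrierˣ) (x y : H i n E),
    sym i n a (x + y) = sym i n a x + sym i n a y
  /-- the residue at `t = 0` -/
  res : ∀ (i n : ℤ) {E : Ext k}, H (i + 1) (n + 1) E.ratFunc → H i n E
  res_add : ∀ (i n : ℤ) {E : Ext k} (x y : H (i + 1) (n + 1) E.ratFunc),
    res i n (x + y) = res i n x + res i n y

attribute [instance] FieldTheory.grp

/-- The residue at `t = 0` of the product of the symbol `{t}` with an element of `H i n E` is this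
element. -/
def FieldTheory.HasResidues (T : FieldTheory.{u, v} k) : Prop :=
  ∀ (i n : ℤ) (E : Ext k) (x : T.H i n E), T.res i n (T.sym i n E.t (T.map i n E.incl x)) = x

/-- The groups `H i n F` are functorial in `F`, the products with symbols are compatible with
embeddings of fields, and all embeddings of fields induce injective maps. -/
structure FieldTheory.IsRational (T : FieldTheory.{u, v} k) : Prop where
  residues : T.HasResidues
  map_comp : ∀ (i n : ℤ) {E F G : Ext k} (f : E.Hom F) (g : F.Hom G) (x : T.H i n E),
    T.map i n (g.comp f : E.Hom G) x = T.map i n g (T.map i n f x)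
  map_sym : ∀ (i n : ℤ) {E F : Ext k} (f : E.Hom F) (a : E.carrierˣ) (x : T.H i n E),
    T.map (i + 1) (n + 1) f (T.sym i n a x) = T.sym i n (Ext.mapUnit f a) (T.map i n f x)
  injective : ∀ (i n : ℤ) {E F : Ext k} (f : E.Hom F), Function.Injective (T.map i n f)

/-- Every element of `H i n E` comes from a countable intermediate field of `E` over `k`. -/
def FieldTheory.IsContinuousAt (T : FieldTheory.{u, v} k) (E : Ext k) : Prop :=
  ∀ (i n : ℤ) (x : T.H i n E), ∃ (L : IntermediateField k E.carrier) (y : T.H i n (Ext.sub L)),
    Countable L ∧ T.map i n (Ext.subVal L) y = x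

end Pool.Agent.TH116.BS
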