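import Pool.Agent.TH116.BS.Defs
import Mathlib.RingTheory.Algebraic.Cardinality
import Mathlib.SetTheory.Cardinal.Finite

/-!
# Vanishing of motivic cohomology in all non-positive degrees from vanishing in one degree
-/

open Polynomial

universe u v

namespace Pool.Agent.TH116.BS

variable {k : Type u} [Field k] (T : FieldTheory.{u, v} k)

lemma FieldTheory.map_zero (i n : ℤ) {E F : Ext k} (f : E.Hom F) : T.map i n f 0 = 0 := by
  have h := T.map_add i n f 0 0
  rw [add_zero] at h
  exact left_eq_add.1 h

lemma FieldTheory.res_zero (i n : ℤ) (E : Ext k) : T.res i n (0 : T.H (i + 1) (n + 1) E.ratFunc) = 0 := by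
  have h := T.res_add i n (0 : T.H (i + 1) (n + 1) E.ratFunc) 0
  rw [add_zero] at h
  exact left_eq_add.1 h

/-- Vanishing over all rational function fields in degree `i + 1` and weight `n + 1` implies
vanishing in degree `i` and weight `n`. -/
lemma subsingleton_of_succ (hT : T.HasResidues) {i n : ℤ} {F : Ext k}
    (h : Subsingleton (T.H (i + 1) (n + 1) F.ratFunc)) : Subsingleton (T.H i n F) := by
  refine subsingleton_of_forall_eq 0 fun x => ?_
  rw [← hT i n F x, Subsingleton.elim (T.sym i n F.t (T.map i n F.incl x)) 0, T.res_zero]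

/-- Vanishing in degree zero for a class of fields closed under passage to rational function fields
implies vanishing in negative degrees. -/
theorem vanishing_of_degree_zero (hT : T.HasResidues)
    (P : Ext k → Prop)
    (hP : ∀ F : Ext k, P F → P F.ratFunc) (N : ℤ)
    (h : ∀ n : ℤ, 1 ≤ n → n ≤ N → ∀ F : Ext k, P F →
      Subsingleton (T.H 0 n F)) (m : ℕ) :
    ∀ n : ℤ, 1 ≤ n → n + m ≤ N → ∀ F : Ext k, P F →
      Subsingleton (T.H (-(m : ℤ)) n F) := by
  induction m with
  | zero =>
    intro n h1 h2 F hF
    have := h n h1 (by simpa using h2) F hF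
    simpa using this
  | succ m ih =>
    intro n h1 h2 F hF
    have h3 := ih (n + 1) (by omega) (by push_cast at h2; omega) F.ratFunc (hP F hF)
    have e : (-((m + 1 : ℕ) : ℤ)) + 1 = -(m : ℤ) := by push_cast; ring
    apply subsingleton_of_succ T hT
    rw [e]
    exact h3

section generic

variable {T}
variable {E : Ext k}

/-- The embedding of `L(t)` in `E` with `t ↦ w`, for `w` transcendental over `L`. -/
noncomputable def embAux {Ω : Type u} [Field Ω] [Algebra k Ω]
    (L : IntermediateField k Ω) (w : Ω) (hw : Transcendental L w) :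
    RatFunc L →ₐ[k] Ω :=
  RatFunc.liftAlgHom ((aeval (R := L) w).restrictScalars k) (by
    intro p hp
    rw [Submonoid.mem_comap, mem_nonZeroDivisors_iff_ne_zero]
    rw [mem_nonZeroDivisors_iff_ne_zero] at hp
    intro h
    exact hp ((transcendental_iff.1 hw) p h))

lemma embAux_poly {Ω : Type u} [Field Ω] [Algebra k Ω]
    (L : IntermediateField k Ω) (w : Ω) (hw : Transcendental L w) (p : L[X]) :
    embAux L w hw (algebraMap L[X] (RatFunc L) p) = aeval (R := L) w p := by
  have h := RatFunc.liftAlgHom_apply_div' ((aeval (R := L) w).restrictScalars k) (by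
    intro p hp
    rw [Submonoid.mem_comap, mem_nonZeroDivisors_iff_ne_zero]
    rw [mem_nonZeroDivisors_iff_ne_zero] at hp
    intro h
    exact hp ((transcendental_iff.1 hw) p h)) p 1
  rw [map_one, map_one, map_one, div_one, div_one] at h
  exact h

lemma embAux_C {Ω : Type u} [Field Ω] [Algebra k Ω]
    (L : IntermediateField k Ω) (w : Ω) (hw : Transcendental L w) (x : L) :
    embAux L w hw (IsScalarTower.toAlgHom k L (RatFunc L) x) = x := by
  have h1 : IsScalarTower.toAlgHom k L (RatFunc L) x = algebraMap L[X] (RatFunc L) (C x) := by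
    change algebraMap L (RatFunc L) x = _
    rw [← Polynomial.algebraMap_eq, ← IsScalarTower.algebraMap_apply]
  rw [h1, embAux_poly, aeval_C]
  rfl

/-- The embedding of `L(t)` in `E` with `t ↦ w`, for `w` transcendental over `L`. -/
noncomputable def emb (L : IntermediateField k E.carrier) (w : E.carrier)
    (hw : Transcendental L w) : (Ext.sub L).ratFunc.Hom E :=
  embAux L w hw

lemma emb_incl (L : IntermediateField k E.carrier) (w : E.carrier) (hw : Transcendental L w) :
    (emb L w hw).comp (Ext.sub L).incl = Ext.subVal L := by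
  apply AlgHom.ext
  intro x
  exact embAux_C L w hw x

/-- A nonzero element of `H i n E` has a nonzero product with the symbol of some unit of `E`, if it
comes from a subfield over which `E` is not algebraic. -/
theorem exists_sym_ne_zero (hT : T.IsRational) {i n : ℤ} (L : IntermediateField k E.carrier)
    (w : E.carrier) (hw : Transcendental L w) (y : T.H i n (Ext.sub L))
    (hy : T.map i n (Ext.subVal L) y ≠ 0) :
    ∃ a : E.carrierˣ, T.sym i n a (T.map i n (Ext.subVal L) y) ≠ 0 := by
  have hy0 : y ≠ 0 := by
    rintro rfl
    exact hy (T.map_zero _ _ _)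
  have h1 : T.sym i n (Ext.sub L).t (T.map i n (Ext.sub L).incl y) ≠ 0 := by
    intro h
    apply hy0
    rw [← hT.residues i n (Ext.sub L) y, h, T.res_zero]
  have h2 : T.map (i + 1) (n + 1) (emb L w hw)
      (T.sym i n (Ext.sub L).t (T.map i n (Ext.sub L).incl y)) ≠ 0 := by
    intro h
    exact h1 (hT.injective _ _ _ (by rw [h, T.map_zero]))
  rw [hT.map_sym, ← hT.map_comp, emb_incl] at h2
  exact ⟨_, h2⟩

/-- Over an uncountable field with countably many constants, each countable subfield has
transcendental elements. -/
lemma exists_transcendental {Ω : Type u} [Field Ω] [Algebra k Ω] [Uncountable Ω]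
    (L : IntermediateField k Ω) [Countable L] :
    ∃ w : Ω, Transcendental L w := by
  by_contra h
  simp only [not_exists] at h
  have halg : Algebra.IsAlgebraic L Ω := ⟨fun w => by
    have := h w
    rwa [Transcendental, not_not] at this⟩
  have h1 := Algebra.IsAlgebraic.cardinalMk_le_max L Ω
  have h2 : Cardinal.mk L ≤ Cardinal.aleph0 := Cardinal.mk_le_aleph0
  have h3 : Cardinal.mk Ω ≤ Cardinal.aleph0 := h1.trans (max_le h2 le_rfl)
  exact not_countable_iff.2 ‹Uncountable Ω› (Cardinal.mk_le_aleph0_iff.1 h3)

/-- If the groups `H (i + 1) (n + 1) E` vanish, so do the groups `H i n E`. -/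
theorem subsingleton_of_succ_of_continuous [Uncountable E.carrier] (hT : T.IsRational)
    (hc : T.IsContinuousAt E) {i n : ℤ} (h : Subsingleton (T.H (i + 1) (n + 1) E)) :
    Subsingleton (T.H i n E) := by
  refine subsingleton_of_forall_eq 0 fun x => ?_
  by_contra hx
  obtain ⟨L, y, hL, rfl⟩ := hc i n x
  obtain ⟨w, hw⟩ := exists_transcendental (k := k) L
  obtain ⟨a, ha⟩ := exists_sym_ne_zero hT L w hw y hx
  exact ha (Subsingleton.elim _ _)

/-- The iterated form of `subsingleton_of_succ_of_continuous`. -/
theorem subsingleton_of_add_of_continuous [Uncountable E.carrier] (hT : T.IsRational)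
    (hc : T.IsContinuousAt E) (m : ℕ) {i n : ℤ} (h : Subsingleton (T.H (i + m) (n + m) E)) :
    Subsingleton (T.H i n E) := by
  induction m generalizing i n with
  | zero => simpa using h
  | succ m ih =>
    apply subsingleton_of_succ_of_continuous hT hc
    apply ih
    have e1 : i + 1 + (m : ℤ) = i + ((m + 1 : ℕ) : ℤ) := by push_cast; ring
    have e2 : n + 1 + (m : ℤ) = n + ((m + 1 : ℕ) : ℤ) := by push_cast; ring
    rw [e1, e2]
    exact h

end generic

section fg

/-- The field of rational functions over a finitely generated field is finitely generated. -/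
lemma essFiniteType_ratFunc (F : Type u) [Field F] [Algebra k F] [Algebra.EssFiniteType k F] :
    Algebra.EssFiniteType k (RatFunc F) := by
  have h1 : Algebra.EssFiniteType F (RatFunc F) := by
    have h2 : Algebra.EssFiniteType F[X] (RatFunc F) :=
      Algebra.EssFiniteType.of_isLocalization (RatFunc F) (nonZeroDivisors F[X])
    exact Algebra.EssFiniteType.comp F F[X] (RatFunc F)
  exact Algebra.EssFiniteType.comp k F (RatFunc F)

end fg

end Pool.Agent.TH116.BS
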